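import Pool.Agent.Work.MP_e7996b_gt.CH.Main

/-!
# MP_e7996b_gt: chainable subcontinua of one-dimensional pseudo-contractible continua are arcs

Definitions: `CovDimLeOne` in `Work/MP_e7996b_gt/TN/DimExt.lean`; `PseudoContractible` in
`Work/MP_e7996b_gt/TN/TypeN.lean`; `IsCont`, `Chainable`, `Unic` in `Work/MP_e7996b_gt/CH/Defs.lean`.
-/

set_option autoImplicit false

namespace Pool.Agent.Results.MP_e7996b_gt.ChainableSubcontinua

open Pool.Agent.Work.MP_e7996b_gt.TN Pool.Agent.Work.MP_e7996b_gt.CH

/-- Let `X` be a pseudo-contractible compact metric space which has covering dimension at most one or is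
hereditarily unicoherent (of any dimension).  Then every nondegenerate chainable subcontinuum of `X` is an arc. -/
theorem result.{u, v} (X : Type u) [MetricSpace X] [CompactSpace X] (h : PseudoContractible.{u, v} X)
    (hX : CovDimLeOne X ∨ Unic X) (Y : Set X) (hY : IsCont Y) (hnt : Y.Nontrivial) (hch : Chainable Y) :
    Nonempty (Y ≃ₜ unitInterval) := by
  have hU : Unic X := hX.elim (fun hX => unic_of_dim hX h) id
  exact (main_unic hU h).1 Y hY hnt hch

end Pool.Agent.Results.MP_e7996b_gt.ChainableSubcontinua
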