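import Pool.Agent.Work.MP_e7996b_gt.Main
import Pool.Agent.Work.MP_e7996b_gt.Dim
import Pool.Agent.Work.MP_e7996b_gt.Ray

/-!
# MP_e7996b_gt: graph-like continua are pseudo-contractible only if they are contractible

Definitions: `Frame`, `Frame.X`, `PC` in `Work/MP_e7996b_gt/Defs.lean`, `DimLeOne` in
`Work/MP_e7996b_gt/Dim.lean`, `ray` in `Work/MP_e7996b_gt/Ray.lean`.
-/

set_option autoImplicit false

namespace Pool.Agent.Results.MP_e7996b_gt.GraphContinua

open Pool.Agent.Work.MP_e7996b_gt TopologicalSpace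

/-- Pseudo-contractible, as in the problem: there are a compact connected metric space `C`, points `a`, `b`
of `C`, a point `p` of `X` and a continuous `H : X × C → X` with `H (x, a) = x`, `H (x, b) = p`. -/
def PseudoContractible (X : Type) [TopologicalSpace X] : Prop :=
  ∃ (C : Type) (_ : MetricSpace C), CompactSpace C ∧ ConnectedSpace C ∧
    ∃ (a b : C) (p : X) (H : C(X × C, X)), ∀ x, H (x, a) = x ∧ H (x, b) = p

theorem PseudoContractible.pc {X : Type} [TopologicalSpace X] (h : PseudoContractible X) :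
    PC X := by
  obtain ⟨C, _, _, _, a, b, p, H, hH⟩ := h
  exact ⟨C, inferInstance, inferInstance, inferInstance, inferInstance, a, b, p, H,
    ⟨H.continuous, fun x => (hH x).1, fun x => (hH x).2⟩⟩

theorem PseudoContractible.of_contractible {X : Type} [TopologicalSpace X]
    (h : ContractibleSpace X) : PseudoContractible X := by
  obtain ⟨p, ⟨G⟩⟩ := id_nullhomotopic X
  refine ⟨unitInterval, inferInstance, inferInstance, inferInstance, 0, 1, p,
    ⟨fun x => G (x.2, x.1), by fun_prop⟩, fun x => ⟨?_, ?_⟩⟩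
  · exact G.apply_zero x
  · exact G.apply_one x

theorem result :
    (∀ (V Z : Type) [Finite V] (F : Frame V Z),
      CompactSpace F.X ∧ DimLeOne F.X ∧ (Countable Z → MetrizableSpace F.X) ∧
        (PseudoContractible F.X ↔ ContractibleSpace F.X) ∧ (PC F.X → ContractibleSpace F.X)) ∧
    ∀ (V : Type) [Finite V] (T : SimpleGraph V) (ρ : ℕ → V) (h : ∀ n, T.Adj (ρ n) (ρ (n + 1))),
      (T.Connected → ConnectedSpace (ray T ρ h).X) ∧ ¬ PseudoContractible (ray T ρ h).X ∧
        ¬ PC (ray T ρ h).X := by
  refine ⟨fun V Z _ F => ⟨F.compactSpace_X, dim_le_one F, fun _ => inferInstance,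
    ⟨fun h => main F h.pc, fun h => PseudoContractible.of_contractible h⟩, main F⟩, ?_⟩
  intro V _ T ρ h
  exact ⟨fun hT => ray_connected T hT ρ h, fun hp => ray_not_contractible T ρ h (main _ hp.pc),
    fun hp => ray_not_contractible T ρ h (main _ hp)⟩

end Pool.Agent.Results.MP_e7996b_gt.GraphContinua
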