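import Pool.Agent.Work.MP_e7996b_gt.CH.Main

/-!
# MP_e7996b_gt: indecomposable subcontinua of one-dimensional pseudo-contractible continua

Definitions: `CovDimLeOne` in `Work/MP_e7996b_gt/TN/DimExt.lean`; `PseudoContractible` in
`Work/MP_e7996b_gt/TN/TypeN.lean`; `IsCont`, `Indecomposable`, `Unic` in `Work/MP_e7996b_gt/CH/Defs.lean`.
-/

set_option autoImplicit false

namespace Pool.Agent.Results.MP_e7996b_gt.IndecomposableSemispan

open Pool.Agent.Work.MP_e7996b_gt.TN Pool.Agent.Work.MP_e7996b_gt.CH

/-- Let `X` be a pseudo-contractible compact metric space which has covering dimension at most one or is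
hereditarily unicoherent (of any dimension).  Then every nondegenerate indecomposable subcontinuum `Y` of `X` has
positive surjective semispan; more precisely any two distinct points `w`, `w'` of `Y` give a point `(w, w')` of a
continuum `L ⊆ Y × Y` which misses the diagonal and has one of its two projections equal to `Y`. -/
theorem result.{u, v} (X : Type u) [MetricSpace X] [CompactSpace X] (h : PseudoContractible.{u, v} X)
    (hX : CovDimLeOne X ∨ Unic X) (Y : Set X) (hY : Indecomposable Y) (hnt : Y.Nontrivial) (w w' : X)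
    (hw : w ∈ Y) (hw' : w' ∈ Y) (hne : w ≠ w') :
    ∃ L : Set (X × X), IsCont L ∧ L ⊆ Y ×ˢ Y ∧ (w, w') ∈ L ∧ (∀ z ∈ L, z.1 ≠ z.2) ∧
      (Prod.fst '' L = Y ∨ Prod.snd '' L = Y) := by
  have hU : Unic X := hX.elim (fun hX => unic_of_dim hX h) id
  exact (main_unic hU h).2 Y hY hnt w hw w' hw' hne

end Pool.Agent.Results.MP_e7996b_gt.IndecomposableSemispan
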