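import Pool.Agent.Work.MP_e7996b_gt.TN.TypeN

/-!
# MP_e7996b_gt: one-dimensional continua of type N are not pseudo-contractible

Definitions: `CovDimLeOne` in `Work/MP_e7996b_gt/TN/DimExt.lean`; `PseudoContractible`, `UniformEscape`,
`ArcLikeBetween`, `TypeN` in `Work/MP_e7996b_gt/TN/TypeN.lean`.
-/

set_option autoImplicit false

namespace Pool.Agent.Results.MP_e7996b_gt.TypeN

open Pool.Agent.Work.MP_e7996b_gt.TN

/-- A pseudo-contractible compact metric space of covering dimension at most one has the uniform escape property
and is not of type N.  (Every arc is arc-like between its end points, so that Oversteegen's continua of type N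
are included.) -/
theorem result.{u, v} :
    (∀ (X : Type u) [MetricSpace X] [CompactSpace X], CovDimLeOne X → PseudoContractible.{u, v} X →
      UniformEscape X ∧ ¬ TypeN X) ∧
    ∀ (X : Type u) [MetricSpace X] (γ : C(unitInterval, X)), Function.Injective γ →
      ArcLikeBetween (Set.range γ) (γ 0) (γ 1) :=
  ⟨fun _ _ _ hX h => ⟨uniformEscape_of hX h, not_typeN (uniformEscape_of hX h)⟩,
    fun _ _ γ hγ => arc_arcLike γ hγ⟩

end Pool.Agent.Results.MP_e7996b_gt.TypeN
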